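import Mathlib
import Pool.Agent.TH35.CH.Quo

set_option autoImplicit false

/-! A simple quotient `Q` of `F_n` by a characteristic subgroup has no small representations. -/

namespace Pool.Agent.Results.MP_23ab47_al.SmallDegree

theorem result :
    ∀ (n d : ℕ), d < 2 ^ (n / 2 - 5) →
    ∀ (Δ : Subgroup (FreeGroup (Fin n))) [Δ.Characteristic],
      IsSimpleGroup (FreeGroup (Fin n) ⧸ Δ) →
      ((∃ k : ℕ, derivedSeries (MulAut (FreeGroup (Fin n) ⧸ Δ)) k ≤
          (MulAut.conj : (FreeGroup (Fin n) ⧸ Δ) →* MulAut (FreeGroup (Fin n) ⧸ Δ)).range) →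
        ∀ (K : Type) [Field K]
          (f : (FreeGroup (Fin n) ⧸ Δ) →* Matrix.GeneralLinearGroup (Fin d) K)
          (q : FreeGroup (Fin n) ⧸ Δ), f q = 1) ∧
      (∀ (K : Type) [Field K]
        (f : MulAut (FreeGroup (Fin n) ⧸ Δ) →* Matrix.GeneralLinearGroup (Fin d) K)
        (q : FreeGroup (Fin n) ⧸ Δ), f (MulAut.conj q) = 1) := by
  intro n d hd Δ _ hs
  exact ⟨fun hO K _ f q => (Pool.Agent.TH35.CH.simple_quo hd Δ hs K).2 hO f q,
    fun K _ f q => (Pool.Agent.TH35.CH.simple_quo hd Δ hs K).1 f q⟩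

end Pool.Agent.Results.MP_23ab47_al.SmallDegree
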